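import Pool.Agent.N290.RL.Stm

set_option autoImplicit false

open Complex MeasureTheory Set Filter Topology

namespace Pool.Agent.N283.RL

open Pool.Agent.N290.RJ Pool.Agent.N290.RK Pool.Agent.N290.RL

variable {d : ℕ}

theorem smul_B {z : E d} (hz : z ∈ B d) (j : ℕ) : rad j • z ∈ B d :=
  smul_mem_B hz (rad_nonneg j) (rad_lt_one j).le

theorem cd_al (A : ℝ) {a : E d → ℝ} (ha : AW a) (j : ℕ) : ContDiffOn ℝ 1 (al A a j) (B d) := by
  have h1 : ContDiffOn ℝ 1 (fun z : E d => a (rad j • z)) (B d) :=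
    ha.a1.comp (contDiff_id.const_smul (rad j)).contDiffOn fun z hz => smul_B hz j
  exact contDiffOn_const.mul h1

theorem diff_a {a : E d → ℝ} (ha : AW a) {z : E d} (hz : z ∈ B d) : DifferentiableAt ℝ a z :=
  (ha.a1.differentiableOn one_ne_zero).differentiableAt (B_open.mem_nhds hz)

theorem fderiv_al (A : ℝ) {a : E d → ℝ} (ha : AW a) (j : ℕ) {z : E d} (hz : z ∈ B d) (ξ : E d) :
    fderiv ℝ (al A a j) z ξ = A * fderiv ℝ a (rad j • z) (rad j • ξ) := by
  have h0 : HasFDerivAt (fun z : E d => rad j • z) (rad j • ContinuousLinearMap.id ℝ (E d)) z :=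
    (hasFDerivAt_id z).const_smul (rad j)
  have h1 : HasFDerivAt (fun z : E d => a (rad j • z))
      ((fderiv ℝ a (rad j • z)).comp (rad j • ContinuousLinearMap.id ℝ (E d))) z :=
    ((diff_a ha (smul_B hz j)).hasFDerivAt).comp z h0
  have h2 : HasFDerivAt (al A a j)
      (A • ((fderiv ℝ a (rad j • z)).comp (rad j • ContinuousLinearMap.id ℝ (E d)))) z :=
    h1.const_mul A
  rw [h2.fderiv]
  simp

theorem YA_of (d : ℕ) (hR : RAY d) (hN : YN d) : YA d := by
  intro A a hA ha j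
  refine ⟨cd_al A ha j, fun z hz => ?_⟩
  have hA0 : 0 < A := by linarith
  obtain ⟨hs0, hs1, hw0, hw1, hw16, hw2, hwm, hlen⟩ := hN z hz j
  obtain ⟨-, -, hv0, -, -, -, -, -⟩ := hN z hz (j + 1)
  have hrz := smul_B hz j
  have hrz' := smul_B hz (j + 1)
  have ha0 := ha.a2 _ hrz
  have ha1 := ha.a2 _ hrz'
  have haz := ha.a2 z hz
  have hn0 : 0 ≤ nm z := nm_nonneg z
  have hn1 : nm z < 1 := mem_B_nm.1 hz
  have hr0 := rad_nonneg j
  have hr1 := rad_lt_one j
  have hr0' := rad_nonneg (j + 1)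
  have hr1' := rad_lt_one (j + 1)
  have hd1 : 0 < 1 - rad j * nm z := by nlinarith
  have hd2 : 0 < 1 - rad (j + 1) * nm z := by nlinarith
  have hd3 : 0 < 1 - nm z := by linarith
  have hrr : rad j ≤ rad (j + 1) := by
    unfold rad
    have : (1 / 2 : ℝ) ^ (j + 1) ≤ (1 / 2) ^ j :=
      pow_le_pow_of_le_one (by norm_num) (by norm_num) (by omega)
    linarith
  have hvw : ww z j ≤ ww z (j + 1) := by
    have h1 := hwm 1 one_pos
    rw [pow_one, pow_one] at h1
    nlinarith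
  -- the ratio for `t' = 1`
  have hR1 := hR a ha z hz (rad j) 1 hr0 hr1.le le_rfl
  rw [one_smul, one_mul] at hR1
  have hratio1 : 1 ≤ (1 - rad j * nm z) / (1 - nm z) := by
    rw [le_div_iff₀ hd3]; nlinarith
  have hpw : ((1 - rad j * nm z) / (1 - nm z)) ^ (1 / 256 : ℝ) ≤ (ww z j)⁻¹ := by
    calc ((1 - rad j * nm z) / (1 - nm z)) ^ (1 / 256 : ℝ)
        ≤ ((1 - rad j * nm z) / (1 - nm z)) ^ (1 / 16 : ℝ) :=
          Real.rpow_le_rpow_of_exponent_le hratio1 (by norm_num)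
      _ = (ww z j)⁻¹ := by
          unfold ww
          rw [← Real.inv_rpow (div_nonneg hd3.le hd1.le), inv_div]
  have h4 : a (rad j • z) ≤ a z / ww z j := by
    rw [div_eq_mul_inv]
    exact hR1.1.trans (mul_le_mul_of_nonneg_left hpw haz.1.le)
  have h3 : a z * ww z j ≤ a (rad j • z) := by
    have h5 := hR1.2.trans (mul_le_mul_of_nonneg_left hpw ha0.1.le)
    rwa [← div_eq_mul_inv, le_div_iff₀ hw0] at h5
  -- the ratio for `t' = rad (j + 1)`
  have hR2 := hR a ha z hz (rad j) (rad (j + 1)) hr0 hrr hr1'.le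
  have hratio2 : (1 - rad j * nm z) / (1 - rad (j + 1) * nm z) = 1 + st j z := by
    unfold st
    rw [div_eq_iff hd2.ne', add_mul, one_mul, div_mul_cancel₀ _ hd2.ne']
    ring
  have hpow2 : (1 + st j z) ^ (1 / 256 : ℝ) ≤ 1 + st j z / 256 := by
    have := rpow_one_add_le_one_add_mul_self (s := st j z) (by linarith)
      (p := 1 / 256) (by norm_num) (by norm_num)
    linarith
  rw [hratio2] at hR2
  have h5 : a (rad (j + 1) • z) ≤ (1 + st j z / 256) * a (rad j • z) := by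
    rw [mul_comm]
    exact hR2.2.trans (mul_le_mul_of_nonneg_left hpow2 ha0.1.le)
  have h6 : a (rad j • z) ≤ (1 + st j z / 256) * a (rad (j + 1) • z) := by
    rw [mul_comm]
    exact hR2.1.trans (mul_le_mul_of_nonneg_left hpow2 ha1.1.le)
  -- the same bound at `j + 1`
  have hR3 := hR a ha z hz (rad (j + 1)) 1 hr0' hr1'.le le_rfl
  rw [one_smul, one_mul] at hR3
  have hratio3 : 1 ≤ (1 - rad (j + 1) * nm z) / (1 - nm z) := by
    rw [le_div_iff₀ hd3]; nlinarith
  have hpw3 : ((1 - rad (j + 1) * nm z) / (1 - nm z)) ^ (1 / 256 : ℝ) ≤ (ww z (j + 1))⁻¹ := by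
    calc ((1 - rad (j + 1) * nm z) / (1 - nm z)) ^ (1 / 256 : ℝ)
        ≤ ((1 - rad (j + 1) * nm z) / (1 - nm z)) ^ (1 / 16 : ℝ) :=
          Real.rpow_le_rpow_of_exponent_le hratio3 (by norm_num)
      _ = (ww z (j + 1))⁻¹ := by
          unfold ww
          rw [← Real.inv_rpow (div_nonneg hd3.le hd2.le), inv_div]
  have h7 : a (rad (j + 1) • z) ≤ a z / ww z j := by
    have h8 : a (rad (j + 1) • z) ≤ a z / ww z (j + 1) := by
      rw [div_eq_mul_inv]
      exact hR3.1.trans (mul_le_mul_of_nonneg_left hpw3 haz.1.le)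
    exact h8.trans (div_le_div_of_nonneg_left haz.1.le hw0 hvw)
  have hq0 : 0 < a z / ww z j := div_pos haz.1 hw0
  refine ⟨mul_pos hA0 ha0.1, ?_, ?_, ?_, ?_, ?_, ?_, ?_⟩
  · show A * a (rad j • z) ≤ A
    nlinarith [ha0.2]
  · show A * a z * ww z j ≤ A * a (rad j • z)
    rw [mul_assoc]
    exact mul_le_mul_of_nonneg_left h3 hA0.le
  · exact mul_le_mul_of_nonneg_left h4 hA0.le
  · show A * a (rad (j + 1) • z) ≤ (1 + st j z / 256) * (A * a (rad j • z))
    have := mul_le_mul_of_nonneg_left h5 hA0.le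
    linarith
  · show A * a (rad j • z) ≤ (1 + st j z / 256) * (A * a (rad (j + 1) • z))
    have := mul_le_mul_of_nonneg_left h6 hA0.le
    linarith
  · show |A * a (rad (j + 1) • z) - A * a (rad j • z)| ≤ A * (a z / ww z j) * st j z
    rw [← mul_sub, abs_mul, abs_of_pos hA0, mul_assoc]
    refine mul_le_mul_of_nonneg_left ?_ hA0.le
    have e1 := mul_le_mul_of_nonneg_right h4 hs0
    have e2 := mul_le_mul_of_nonneg_right h7 hs0
    have e3 := mul_nonneg hq0.le hs0
    rw [abs_le]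
    constructor
    · nlinarith
    · nlinarith
  · intro ξ
    rw [fderiv_al A ha j hz, abs_mul, abs_of_pos hA0]
    have h8 := ha.a3 _ hrz (rad j • ξ)
    have h9 := hlen ξ
    have hl0 : 0 ≤ len z ξ := len_nonneg z ξ
    have h10 : a (rad j • z) * len (rad j • z) (rad j • ξ) ≤
        (a z / ww z j) * (3 / 2 * ww z j ^ 8 * len z ξ) :=
      mul_le_mul h4 h9 (len_nonneg _ _) hq0.le
    have h11 : (a z / ww z j) * (3 / 2 * ww z j ^ 8 * len z ξ) =
        3 / 2 * (a z * ww z j ^ 7 * len z ξ) := by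
      field_simp
    rw [h11] at h10
    have hX : 0 ≤ a z * ww z j ^ 7 * len z ξ :=
      mul_nonneg (mul_nonneg haz.1.le (pow_nonneg hw0.le 7)) hl0
    calc A * |fderiv ℝ a (rad j • z) (rad j • ξ)|
        ≤ A * (2 * (a z * ww z j ^ 7 * len z ξ)) :=
          mul_le_mul_of_nonneg_left (by linarith) hA0.le
      _ = 2 * A * a z * ww z j ^ 7 * len z ξ := by ring

end Pool.Agent.N283.RL
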